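import Mathlib
import Pool.Agent.K3h35.GS.Stm

/-!
# Brick K4: uniqueness for the radial mode
-/

set_option autoImplicit false

namespace Pool.Agent.K3h28.GAH

open Filter Topology Set

lemma mono_of (g g1 : ℝ → ℝ) (T : ℝ) (hg : ∀ x, HasDerivAt g (g1 x) x) (h : ∀ x ≤ T, 0 ≤ g1 x)
    {s t : ℝ} (hst : s ≤ t) (ht : t ≤ T) : g s ≤ g t := by
  have hmono : MonotoneOn g (Iic T) := by
    apply monotoneOn_of_deriv_nonneg (convex_Iic T)
    · exact fun x _ => (hg x).continuousAt.continuousWithinAt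
    · exact fun x _ => (hg x).differentiableAt.differentiableWithinAt
    · intro x hx
      rw [interior_Iic] at hx
      rw [(hg x).deriv]
      exact h x (le_of_lt hx)
  exact hmono (mem_Iic.2 (hst.trans ht)) (mem_Iic.2 ht) hst

lemma hder_exp (K : ℝ) (t : ℝ) : HasDerivAt (fun t => K / 2 * Real.exp (2 * t)) (K * Real.exp (2 * t)) t := by
  have h1 : HasDerivAt (fun t : ℝ => 2 * t) 2 t := by
    simpa using (hasDerivAt_id t).const_mul (2 : ℝ)
  exact ((h1.exp).const_mul (K / 2)).congr_deriv (by ring)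

section

variable {V f f1 : ℝ → ℝ} {C : ℝ} (hV : ∀ t, |V t| ≤ C * Real.exp (2 * t))
  (hf : ∀ t, HasDerivAt f (f1 t) t) (hf1 : ∀ t, HasDerivAt f1 (V t * f t) t)

include hV hf1 in
/-- the variation of the derivative -/
lemma f1_var {M T : ℝ} (hC : 0 ≤ C) (hM : 0 ≤ M) (hb : ∀ t ≤ T, |f t| ≤ M) {s t : ℝ} (hst : s ≤ t)
    (ht : t ≤ T) : |f1 t - f1 s| ≤ C * M / 2 * Real.exp (2 * t) := by
  have hder := hder_exp (C * M)
  have hbd : ∀ u ≤ T, |V u * f u| ≤ C * M * Real.exp (2 * u) := by
    intro u hu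
    rw [abs_mul]
    calc |V u| * |f u| ≤ (C * Real.exp (2 * u)) * M := by
          apply mul_le_mul (hV u) (hb u hu) (abs_nonneg _)
          positivity
      _ = _ := by ring
  have h1 := mono_of (fun t => C * M / 2 * Real.exp (2 * t) - f1 t)
    (fun t => C * M * Real.exp (2 * t) - V t * f t) T (fun x => (hder x).sub (hf1 x)) (fun x hx => by
      have := (abs_le.1 (hbd x hx)).2
      linarith) hst ht
  have h2 := mono_of (fun t => C * M / 2 * Real.exp (2 * t) + f1 t)
    (fun t => C * M * Real.exp (2 * t) + V t * f t) T (fun x => (hder x).add (hf1 x)) (fun x hx => by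
      have := (abs_le.1 (hbd x hx)).1
      linarith) hst ht
  have h3 : 0 ≤ C * M / 2 * Real.exp (2 * s) := by positivity
  rw [abs_le]
  constructor <;> linarith

include hV hf hf1 in
/-- the derivative is small -/
lemma f1_small {M T : ℝ} (hC : 0 ≤ C) (hM : 0 ≤ M) (hb : ∀ t ≤ T, |f t| ≤ M) {t : ℝ}
    (ht : t ≤ T) : f1 t ≤ C * M / 2 * Real.exp (2 * t) := by
  by_contra hcon
  push Not at hcon
  set ε := f1 t - C * M / 2 * Real.exp (2 * t) with hε
  have hε0 : 0 < ε := by linarith
  have hlow : ∀ s ≤ t, ε ≤ f1 s := by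
    intro s hs
    have h1 := (abs_le.1 (f1_var hV hf1 hC hM hb hs ht)).2
    linarith
  -- the function grows
  have hgrow : ∀ s ≤ t, ε * (t - s) ≤ f t - f s := by
    intro s hs
    have hder : ∀ u : ℝ, HasDerivAt (fun u => f u - ε * u) (f1 u - ε) u := by
      intro u
      have h2 : HasDerivAt (fun u : ℝ => ε * u) ε u := by
        simpa using (hasDerivAt_id u).const_mul ε
      exact (hf u).sub h2
    have h3 := mono_of _ _ t hder (fun x hx => by have := hlow x hx; linarith) hs le_rfl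
    linarith
  have h4 := hgrow (t - (2 * M + 1) / ε) (by
    have : 0 ≤ (2 * M + 1) / ε := by positivity
    linarith)
  have h5 : ε * (t - (t - (2 * M + 1) / ε)) = 2 * M + 1 := by
    field_simp
    ring
  rw [h5] at h4
  have h6 := (abs_le.1 (hb t ht)).2
  have h7 := (abs_le.1 (hb (t - (2 * M + 1) / ε) (by
    have : 0 ≤ (2 * M + 1) / ε := by positivity
    linarith))).1
  linarith

include hV hf hf1 in
lemma f1_abs {M T : ℝ} (hC : 0 ≤ C) (hM : 0 ≤ M) (hb : ∀ t ≤ T, |f t| ≤ M) {t : ℝ}
    (ht : t ≤ T) : |f1 t| ≤ C * M / 2 * Real.exp (2 * t) := by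
  rw [abs_le]
  refine ⟨?_, f1_small hV hf hf1 hC hM hb ht⟩
  have h1 := f1_small (V := V) (f := fun t => - f t) (f1 := fun t => - f1 t) hV
    (fun t => (hf t).neg) (fun t => by
      exact (hf1 t).neg.congr_deriv (by ring)) hC hM (fun t ht => by rw [abs_neg]; exact hb t ht) ht
  linarith

include hV hf hf1 in
/-- the function is small -/
lemma f_abs {M T : ℝ} (hC : 0 ≤ C) (hM : 0 ≤ M) (hb : ∀ t ≤ T, |f t| ≤ M)
    (h0 : Tendsto f atBot (𝓝 0)) {t : ℝ}
    (ht : t ≤ T) : |f t| ≤ C * M / 4 * Real.exp (2 * t) := by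
  have hder : ∀ t : ℝ, HasDerivAt (fun t => C * M / 4 * Real.exp (2 * t))
      (C * M / 2 * Real.exp (2 * t)) t := by
    intro t
    have h1 := hder_exp (C * M / 2) t
    have h2 : C * M / 2 / 2 = C * M / 4 := by ring
    rw [h2] at h1
    exact h1
  have hbd : ∀ u ≤ T, |f1 u| ≤ C * M / 2 * Real.exp (2 * u) :=
    fun u hu => f1_abs hV hf hf1 hC hM hb hu
  have h1 : |f t| ≤ C * M / 4 * Real.exp (2 * t) := by
    have hlim : Tendsto (fun s => |f t - f s|) atBot (𝓝 |f t - 0|) :=
      (tendsto_const_nhds.sub h0).abs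
    rw [sub_zero] at hlim
    refine le_of_tendsto hlim ?_
    filter_upwards [eventually_le_atBot t] with s hs
    have h1 := mono_of (fun t => C * M / 4 * Real.exp (2 * t) - f t)
      (fun t => C * M / 2 * Real.exp (2 * t) - f1 t) T (fun x => (hder x).sub (hf x)) (fun x hx => by
        have := (abs_le.1 (hbd x hx)).2
        linarith) hs ht
    have h2 := mono_of (fun t => C * M / 4 * Real.exp (2 * t) + f t)
      (fun t => C * M / 2 * Real.exp (2 * t) + f1 t) T (fun x => (hder x).add (hf x)) (fun x hx => by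
        have := (abs_le.1 (hbd x hx)).1
        linarith) hs ht
    have h3 : 0 ≤ C * M / 4 * Real.exp (2 * s) := by positivity
    rw [abs_le]
    constructor <;> linarith
  exact h1

end

/-- **Brick K4.** -/
theorem t_K4 : Pool.Agent.K3h35.GS.St_K4 := by
  intro V f f1 C hV hf hf1 h0
  have hC : 0 ≤ C := by
    have h1 := (abs_nonneg _).trans (hV 0)
    simpa using h1
  -- a left half line on which `f` vanishes
  obtain ⟨T₀, hT₀⟩ : ∃ T₀ : ℝ, ∀ t ≤ T₀, |f t| ≤ 1 := by
    have h1 : ∀ᶠ t in atBot, |f t| < 1 := by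
      have h2 : Tendsto (fun t => |f t|) atBot (𝓝 |(0 : ℝ)|) := h0.abs
      rw [abs_zero] at h2
      exact h2.eventually_lt_const one_pos
    obtain ⟨T₀, h2⟩ := eventually_atBot.1 h1
    exact ⟨T₀, fun t ht => (h2 t ht).le⟩
  obtain ⟨T, hT0, hT⟩ : ∃ T ≤ T₀, C * Real.exp (2 * T) ≤ 1 := by
    refine ⟨min T₀ (-C), min_le_left _ _, ?_⟩
    have h1 : Real.exp (2 * min T₀ (-C)) ≤ Real.exp (-C) := by
      apply Real.exp_le_exp.2
      have := min_le_right T₀ (-C)
      linarith
    have h2 : C * Real.exp (-C) ≤ 1 := by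
      have h3 : C ≤ Real.exp C := by
        have := Real.add_one_le_exp C
        linarith
      calc C * Real.exp (-C) ≤ Real.exp C * Real.exp (-C) := by gcongr
        _ = 1 := by rw [← Real.exp_add]; simp
    exact (mul_le_mul_of_nonneg_left h1 hC).trans h2
  have hiter : ∀ n : ℕ, ∀ t ≤ T, |f t| ≤ (1 / 4 : ℝ) ^ n := by
    intro n
    induction n with
    | zero => intro t ht; simpa using hT₀ t (ht.trans hT0)
    | succ n ih =>
      intro t ht
      have h1 := f_abs hV hf hf1 hC (by positivity) ih h0 ht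
      refine h1.trans ?_
      have h2 : C * Real.exp (2 * t) ≤ 1 := by
        refine le_trans (mul_le_mul_of_nonneg_left ?_ hC) hT
        exact Real.exp_le_exp.2 (by linarith)
      have h3 : (0 : ℝ) ≤ (1 / 4) ^ n := by positivity
      rw [pow_succ]
      nlinarith
  have hzero : ∀ t ≤ T, f t = 0 := by
    intro t ht
    have h1 : Tendsto (fun n : ℕ => (1 / 4 : ℝ) ^ n) atTop (𝓝 0) :=
      tendsto_pow_atTop_nhds_zero_of_lt_one (by norm_num) (by norm_num)
    have h2 := ge_of_tendsto' h1 (fun n => hiter n t ht)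
    exact abs_nonpos_iff.1 h2
  have hzero1 : f1 T = 0 := by
    have h1 := f1_abs (M := 0) (T := T) hV hf hf1 hC le_rfl (fun t ht => by rw [hzero t ht]; simp) le_rfl
    simp at h1
    exact h1
  intro t
  rcases le_total t T with ht | ht
  · exact hzero t ht
  · set K : ℝ := max 1 (C * Real.exp (2 * t)) with hK
    have hg := norm_le_gronwallBound_of_norm_deriv_right_le (f := fun u => (f u, f1 u))
      (f' := fun u => (f1 u, V u * f u)) (δ := 0) (K := K) (ε := 0) (a := T) (b := t)
      (fun u _ => ((hf u).prodMk (hf1 u)).continuousAt.continuousWithinAt)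
      (fun u _ => ((hf u).prodMk (hf1 u)).hasDerivWithinAt) (by
        rw [hzero T le_rfl, hzero1]; simp) (by
        intro u hu
        rw [add_zero, Prod.norm_def, Prod.norm_def]
        simp only
        have hK1 : 1 ≤ K := le_max_left _ _
        have hKV : ‖V u‖ ≤ K := by
          rw [Real.norm_eq_abs]
          refine (hV u).trans ((mul_le_mul_of_nonneg_left ?_ hC).trans (le_max_right _ _))
          exact Real.exp_le_exp.2 (by linarith [hu.2])
        apply max_le
        · calc ‖f1 u‖ ≤ max ‖f u‖ ‖f1 u‖ := le_max_right _ _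
            _ ≤ K * max ‖f u‖ ‖f1 u‖ := le_mul_of_one_le_left (by positivity) hK1
        · rw [norm_mul]
          exact mul_le_mul hKV (le_max_left _ _) (norm_nonneg _) (by linarith)) t ⟨ht, le_rfl⟩
    rw [gronwallBound_ε0_δ0] at hg
    have h1 : (f t, f1 t) = 0 := norm_le_zero_iff.1 hg
    exact (Prod.ext_iff.1 h1).1

end Pool.Agent.K3h28.GAH
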