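import Mathlib
import Pool.Agent.K3h35.GS.Stm

/-!
# Brick N: pointwise estimates for the nonlinearity
-/

set_option autoImplicit false

namespace Pool.Agent.K3h28.GAH

open Pool.Agent.K3h35.GS (kk kd)

/-- `kk a R v = e^{a v} K(R e^v)` -/
noncomputable def KF (a X : ℝ) : ℝ := Real.exp (-(a * X)) * (X - 1)

/-- `kd a R v = e^{a v} D(R e^v)` -/
noncomputable def DF (a X : ℝ) : ℝ := Real.exp (-(a * X)) * (X - a * (1 - X) ^ 2)

lemma kk_eq (a R v : ℝ) : kk a R v = Real.exp (a * v) * KF a (R * Real.exp v) := by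
  unfold kk KF
  rw [← mul_assoc, ← Real.exp_add]
  ring_nf

lemma kd_eq (a R v : ℝ) : kd a R v = Real.exp (a * v) * DF a (R * Real.exp v) := by
  unfold kd DF
  rw [← mul_assoc, ← Real.exp_add]
  ring_nf

lemma hder_exp' (a X : ℝ) : HasDerivAt (fun X => Real.exp (-(a * X))) (-(a * Real.exp (-(a * X)))) X := by
  have h1 : HasDerivAt (fun X : ℝ => -(a * X)) (-a) X :=
    ((hasDerivAt_id X).const_mul a).neg.congr_deriv (by simp)
  exact h1.exp.congr_deriv (by ring)

lemma hder_KF (a X : ℝ) : HasDerivAt (KF a) (Real.exp (-(a * X)) * (1 - a * (X - 1))) X := by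
  unfold KF
  have h1 : HasDerivAt (fun X : ℝ => X - 1) 1 X := (hasDerivAt_id X).sub_const 1
  exact ((hder_exp' a X).mul h1).congr_deriv (by ring)

lemma hder_DF (a X : ℝ) : HasDerivAt (DF a)
    (Real.exp (-(a * X)) * (-(a * (X - a * (1 - X) ^ 2)) + 1 + 2 * a * (1 - X))) X := by
  unfold DF
  have h1 : HasDerivAt (fun X : ℝ => 1 - X) (-1) X := by
    simpa using (hasDerivAt_id X).const_sub 1
  have h2 : HasDerivAt (fun X : ℝ => X - a * (1 - X) ^ 2) (1 + 2 * a * (1 - X)) X := by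
    have h3 := (hasDerivAt_id X).sub ((h1.pow 2).const_mul a)
    exact h3.congr_deriv (by push_cast; ring)
  exact ((hder_exp' a X).mul h2).congr_deriv (by ring)

lemma hder_kk (a R v : ℝ) : HasDerivAt (kk a R) (kd a R v) v := by
  have h1 : HasDerivAt (fun v => R * Real.exp v) (R * Real.exp v) v := (Real.hasDerivAt_exp v).const_mul R
  have h2 : HasDerivAt (fun v => Real.exp (a * v)) (a * Real.exp (a * v)) v := by
    have h3 : HasDerivAt (fun X : ℝ => a * X) a v := by
      simpa using (hasDerivAt_id v).const_mul a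
    exact h3.exp.congr_deriv (by ring)
  have h3 := (hder_KF a (R * Real.exp v)).comp v h1
  have h4 := h2.mul h3
  have h5 : kk a R = (fun v => Real.exp (a * v)) * (KF a ∘ fun v => R * Real.exp v) := by
    funext v
    rw [kk_eq]
    rfl
  rw [h5]
  refine h4.congr_deriv ?_
  rw [kd_eq]
  unfold DF
  simp only [Function.comp]
  unfold KF
  ring

section

variable {a M : ℝ} (ha : 0 < a)

include ha in
lemma exp_le (X : ℝ) (hX : 0 ≤ X) : Real.exp (-(a * X)) ≤ 1 := by
  rw [Real.exp_le_one_iff]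
  have := mul_nonneg ha.le hX
  linarith

/-- bound for `D` -/
noncomputable def BD (a M : ℝ) : ℝ := M + a * (1 + M) ^ 2

/-- Lipschitz constant for `D` -/
noncomputable def LD (a M : ℝ) : ℝ := a * BD a M + 1 + 2 * a * (1 + M)

/-- Lipschitz constant for `K` -/
noncomputable def LK (a M : ℝ) : ℝ := 1 + a * (1 + M)

include ha in
lemma poly_bound {X : ℝ} (hX0 : 0 ≤ X) (hXM : X ≤ M) : |X - a * (1 - X) ^ 2| ≤ BD a M := by
  unfold BD
  have h1 : (1 - X) ^ 2 ≤ (1 + M) ^ 2 := by
    apply sq_le_sq'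
    · linarith
    · linarith
  have h2 : a * (1 - X) ^ 2 ≤ a * (1 + M) ^ 2 := mul_le_mul_of_nonneg_left h1 ha.le
  have h3 : 0 ≤ a * (1 - X) ^ 2 := by positivity
  rw [abs_le]
  constructor <;> nlinarith

include ha in
lemma D_bound {X : ℝ} (hX0 : 0 ≤ X) (hXM : X ≤ M) : |DF a X| ≤ BD a M := by
  unfold DF
  rw [abs_mul, abs_of_pos (Real.exp_pos _)]
  have h1 := poly_bound ha hX0 hXM
  calc _ ≤ 1 * |X - a * (1 - X) ^ 2| := by
        apply mul_le_mul_of_nonneg_right (exp_le ha X hX0) (abs_nonneg _)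
    _ ≤ _ := by rw [one_mul]; exact h1

include ha in
lemma D_lip {X X' : ℝ} (hX0 : 0 ≤ X) (hXM : X ≤ M) (hX0' : 0 ≤ X') (hXM' : X' ≤ M) :
    |DF a X - DF a X'| ≤ LD a M * |X - X'| := by
  have h := Convex.norm_image_sub_le_of_norm_hasDerivWithin_le (f := DF a)
    (f' := fun X => Real.exp (-(a * X)) * (-(a * (X - a * (1 - X) ^ 2)) + 1 + 2 * a * (1 - X)))
    (s := Set.Icc 0 M) (x := X') (y := X) (C := LD a M)
    (fun X _ => (hder_DF a X).hasDerivWithinAt) ?_ (convex_Icc 0 M) ⟨hX0', hXM'⟩ ⟨hX0, hXM⟩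
  · exact h
  · intro Z hZ
    rw [Real.norm_eq_abs, abs_mul, abs_of_pos (Real.exp_pos _)]
    have h1 := poly_bound ha hZ.1 hZ.2
    have h2 : |-(a * (Z - a * (1 - Z) ^ 2)) + 1 + 2 * a * (1 - Z)| ≤ LD a M := by
      unfold LD
      have h3 : |a * (Z - a * (1 - Z) ^ 2)| ≤ a * BD a M := by
        rw [abs_mul, abs_of_pos ha]
        exact mul_le_mul_of_nonneg_left h1 ha.le
      rw [abs_le] at h3 ⊢
      have h4 := hZ.1
      have h5 := hZ.2
      constructor <;> nlinarith
    calc _ ≤ 1 * |-(a * (Z - a * (1 - Z) ^ 2)) + 1 + 2 * a * (1 - Z)| :=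
          mul_le_mul_of_nonneg_right (exp_le ha Z hZ.1) (abs_nonneg _)
      _ ≤ _ := by rw [one_mul]; exact h2

include ha in
lemma K_lip {X X' : ℝ} (hX0 : 0 ≤ X) (hXM : X ≤ M) (hX0' : 0 ≤ X') (hXM' : X' ≤ M) :
    |KF a X - KF a X'| ≤ LK a M * |X - X'| := by
  have h := Convex.norm_image_sub_le_of_norm_hasDerivWithin_le (f := KF a)
    (f' := fun X => Real.exp (-(a * X)) * (1 - a * (X - 1)))
    (s := Set.Icc 0 M) (x := X') (y := X) (C := LK a M)
    (fun X _ => (hder_KF a X).hasDerivWithinAt) ?_ (convex_Icc 0 M) ⟨hX0', hXM'⟩ ⟨hX0, hXM⟩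
  · exact h
  · intro Z hZ
    rw [Real.norm_eq_abs, abs_mul, abs_of_pos (Real.exp_pos _)]
    have h2 : |1 - a * (Z - 1)| ≤ LK a M := by
      unfold LK
      rw [abs_le]
      have h4 := hZ.1
      have h5 := hZ.2
      constructor <;> nlinarith
    calc _ ≤ 1 * |1 - a * (Z - 1)| :=
          mul_le_mul_of_nonneg_right (exp_le ha Z hZ.1) (abs_nonneg _)
      _ ≤ _ := by rw [one_mul]; exact h2

end

lemma exp_sub_one (u : ℝ) : |Real.exp u - 1| ≤ |u| * Real.exp |u| := by
  have h1 := Real.add_one_le_exp u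
  have h2 := Real.add_one_le_exp (-u)
  rcases le_total 0 u with h | h
  · rw [abs_of_nonneg h, abs_of_nonneg (by linarith)]
    have h3 : Real.exp u * Real.exp (-u) = 1 := by rw [← Real.exp_add]; simp
    have h4 := Real.exp_pos u
    nlinarith
  · rw [abs_of_nonpos h, abs_of_nonpos (by
      have : Real.exp u ≤ 1 := Real.exp_le_one_iff.2 h
      linarith)]
    have h4 : 1 ≤ Real.exp (-u) := by linarith
    nlinarith

/-- **Brick N.** -/
theorem t_N : Pool.Agent.K3h35.GS.St_N := by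
  intro a Q C0 N ha hC0 hNQ haQ
  set e := Real.exp 1 with he
  have he1 : 1 ≤ e := by
    have := Real.add_one_le_exp (1 : ℝ)
    linarith
  set M := 4 * C0 * e with hM
  have hM0 : 0 < M := by positivity
  have hC0M : C0 ≤ M := by nlinarith
  have hBD0 : 0 ≤ BD a M := by unfold BD; positivity
  have hLD0 : 0 ≤ LD a M := by unfold LD; positivity
  have hLK0 : 0 ≤ LK a M := by unfold LK; positivity
  set C' := BD a M * a * e + LD a M * (3 * C0 * e) with hC'
  have hC'0 : 0 ≤ C' := by positivity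
  set C1 := C0 ^ a * (4 * C' + 3 * C0 * LK a M) + 1 with hC1
  refine ⟨C1, min 1 (1 / (2 * (a + 1))), by positivity, by positivity, ?_⟩
  intro κ δ y v R z z' hκ0 hκ hδ0 hδ1 hy hv hR0 hR4 hR1 hz hz'
  have hy0 : 0 < y := by linarith
  have hκ1 : κ ≤ 1 := hκ.trans (min_le_left _ _)
  have haκ : a * κ ≤ 1 / 2 := by
    have h1 : κ ≤ 1 / (2 * (a + 1)) := hκ.trans (min_le_right _ _)
    rw [le_div_iff₀ (by positivity)] at h1
    nlinarith
  set L := 1 + Real.log y with hL
  have hlog0 : 0 ≤ Real.log y := Real.log_nonneg hy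
  have hL1 : 1 ≤ L := by linarith
  have hL0 : 0 < L := by linarith
  -- `L ≤ 2 √y`
  set q := y ^ (1 / 2 : ℝ) with hq
  have hq0 : 0 < q := Real.rpow_pos_of_pos hy0 _
  have hq1 : 1 ≤ q := Real.one_le_rpow hy (by norm_num)
  have hqq : q * q = y := by
    rw [hq, ← Real.rpow_add hy0]
    norm_num
  have hLq : L ≤ 2 * q := by
    have h1 : Real.log y = 2 * Real.log q := by
      rw [← hqq, Real.log_mul hq0.ne' hq0.ne']; ring
    have h2 := Real.log_le_sub_one_of_pos hq0
    rw [hL, h1]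
    linarith
  have hqinv : y ^ (-(1 / 2) : ℝ) = q⁻¹ := by
    rw [Real.rpow_neg hy0.le]
  -- powers of `y`
  have hyNQ : y ^ N * y ^ (-Q) ≤ y⁻¹ := by
    rw [← Real.rpow_natCast, ← Real.rpow_add hy0, ← Real.rpow_neg_one]
    apply Real.rpow_le_rpow_of_exponent_le hy
    linarith
  have hyQ : y ^ (-Q) ≤ y⁻¹ := by
    rw [← Real.rpow_neg_one]
    apply Real.rpow_le_rpow_of_exponent_le hy
    have : (0 : ℝ) ≤ N := Nat.cast_nonneg N
    linarith
  have hyinv1 : y⁻¹ ≤ 1 := inv_le_one_of_one_le₀ hy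
  have hyQ0 : 0 < y ^ (-Q) := Real.rpow_pos_of_pos hy0 _
  have hev0 : 0 < Real.exp v := Real.exp_pos v
  -- `e^{a v}`
  have heav : Real.exp (a * v) ≤ C0 ^ a * (y⁻¹) ^ 4 := by
    have h1 : Real.exp (a * v) = Real.exp v ^ a := by
      rw [← Real.exp_mul]; ring_nf
    rw [h1]
    calc Real.exp v ^ a ≤ (C0 * y ^ (-Q)) ^ a := Real.rpow_le_rpow hev0.le hv ha.le
      _ = C0 ^ a * y ^ (-(a * Q)) := by
          rw [Real.mul_rpow hC0.le hyQ0.le, ← Real.rpow_mul hy0.le]
          ring_nf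
      _ ≤ C0 ^ a * (y⁻¹) ^ 4 := by
          apply mul_le_mul_of_nonneg_left _ (by positivity)
          rw [inv_pow, ← Real.rpow_natCast, ← Real.rpow_neg hy0.le]
          apply Real.rpow_le_rpow_of_exponent_le hy
          push_cast
          linarith
  -- the exponentials of `ζ`
  have hu : ∀ ζ : ℝ, |ζ| ≤ κ * L → Real.exp |ζ| ≤ e * y := by
    intro ζ hζ
    have h1 : |ζ| ≤ 1 + Real.log y := by
      refine hζ.trans ?_
      rw [← hL]
      nlinarith
    calc Real.exp |ζ| ≤ Real.exp (1 + Real.log y) := Real.exp_le_exp.2 h1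
      _ = e * y := by rw [Real.exp_add, Real.exp_log hy0]
  have hua : ∀ ζ : ℝ, |ζ| ≤ κ * L → Real.exp (a * |ζ|) ≤ e * q := by
    intro ζ hζ
    have h1 : a * |ζ| ≤ 1 + 1 / 2 * Real.log y := by
      have h2 : a * |ζ| ≤ a * (κ * L) := mul_le_mul_of_nonneg_left hζ ha.le
      have h3 : a * (κ * L) ≤ 1 / 2 * L := by
        rw [← mul_assoc]; exact mul_le_mul_of_nonneg_right haκ hL0.le
      linarith
    calc Real.exp (a * |ζ|) ≤ Real.exp (1 + 1 / 2 * Real.log y) := Real.exp_le_exp.2 h1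
      _ = e * q := by
          rw [Real.exp_add, hq, Real.rpow_def_of_pos hy0, he]
          ring_nf
  have hX0 : ∀ ζ : ℝ, 0 ≤ R * Real.exp (v + ζ) := fun ζ => mul_nonneg hR0 (Real.exp_pos _).le
  have hexpv : ∀ ζ : ℝ, |ζ| ≤ κ * L → Real.exp (v + ζ) ≤ C0 * y ^ (-Q) * (e * y) := by
    intro ζ hζ
    rw [Real.exp_add]
    apply mul_le_mul hv _ (Real.exp_pos _).le (by positivity)
    exact (Real.exp_le_exp.2 (le_abs_self ζ)).trans (hu ζ hζ)
  have hXM : ∀ ζ : ℝ, |ζ| ≤ κ * L → R * Real.exp (v + ζ) ≤ M := by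
    intro ζ hζ
    calc R * Real.exp (v + ζ) ≤ (4 * y ^ N) * (C0 * y ^ (-Q) * (e * y)) :=
          mul_le_mul hR4 (hexpv ζ hζ) (Real.exp_pos _).le (by positivity)
      _ = 4 * C0 * e * ((y ^ N * y ^ (-Q)) * y) := by ring
      _ ≤ 4 * C0 * e * (y⁻¹ * y) := by gcongr
      _ = M := by rw [inv_mul_cancel₀ hy0.ne', mul_one]
  have hev1 : Real.exp v ≤ C0 := by
    calc Real.exp v ≤ C0 * y ^ (-Q) := hv
      _ ≤ C0 * 1 := by gcongr; exact hyQ.trans hyinv1
      _ = C0 := mul_one _
  have hevM : 1 * Real.exp v ≤ M := by rw [one_mul]; exact hev1.trans hC0M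
  have hR1v : |R - 1| * (C0 * y ^ (-Q)) ≤ 3 * C0 * δ * y⁻¹ := by
    calc |R - 1| * (C0 * y ^ (-Q)) ≤ (3 * δ * y ^ N) * (C0 * y ^ (-Q)) := by gcongr
      _ = 3 * C0 * δ * (y ^ N * y ^ (-Q)) := by ring
      _ ≤ 3 * C0 * δ * y⁻¹ := by gcongr
  constructor
  · -- the first estimate
    have hder : ∀ ζ : ℝ, HasDerivAt (fun ζ => kk a R (v + ζ) - kd a 1 v * ζ)
        (kd a R (v + ζ) - kd a 1 v) ζ := by
      intro ζ
      have h1 : HasDerivAt (fun ζ => v + ζ) 1 ζ := (hasDerivAt_id ζ).const_add v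
      have h2 := (hder_kk a R (v + ζ)).comp ζ h1
      have h3 : HasDerivAt (fun ζ => kd a 1 v * ζ) (kd a 1 v) ζ := by
        simpa using (hasDerivAt_id ζ).const_mul (kd a 1 v)
      exact (h2.sub h3).congr_deriv (by ring)
    set B := C0 ^ a * (y⁻¹) ^ 4 * (C' * (κ + δ) * L * q) with hB
    have hbound : ∀ ζ : ℝ, |ζ| ≤ κ * L → |kd a R (v + ζ) - kd a 1 v| ≤ B := by
      intro ζ hζ
      have h1 : kd a R (v + ζ) - kd a 1 v = Real.exp (a * v) *
          ((Real.exp (a * ζ) - 1) * DF a (R * Real.exp (v + ζ)) +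
            (DF a (R * Real.exp (v + ζ)) - DF a (1 * Real.exp v))) := by
        rw [kd_eq, kd_eq, mul_add a, Real.exp_add (a * v)]
        ring
      rw [h1, abs_mul, abs_of_pos (Real.exp_pos _)]
      have h2 : |(Real.exp (a * ζ) - 1) * DF a (R * Real.exp (v + ζ))| ≤
          (a * (κ * L) * (e * q)) * BD a M := by
        rw [abs_mul]
        apply mul_le_mul _ (D_bound ha (hX0 ζ) (hXM ζ hζ)) (abs_nonneg _) (by positivity)
        refine (exp_sub_one _).trans ?_
        rw [abs_mul, abs_of_pos ha]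
        exact mul_le_mul (mul_le_mul_of_nonneg_left hζ ha.le) (hua ζ hζ) (Real.exp_pos _).le
          (by positivity)
      have h3 : |R * Real.exp (v + ζ) - 1 * Real.exp v| ≤ 3 * C0 * e * δ + C0 * e * (κ * L) := by
        have h4 : R * Real.exp (v + ζ) - 1 * Real.exp v =
            (R - 1) * Real.exp (v + ζ) + Real.exp v * (Real.exp ζ - 1) := by
          rw [Real.exp_add]; ring
        rw [h4]
        refine (abs_add_le _ _).trans (add_le_add ?_ ?_)
        · rw [abs_mul, abs_of_pos (Real.exp_pos _)]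
          calc |R - 1| * Real.exp (v + ζ) ≤ |R - 1| * (C0 * y ^ (-Q) * (e * y)) :=
                mul_le_mul_of_nonneg_left (hexpv ζ hζ) (abs_nonneg _)
            _ = (|R - 1| * (C0 * y ^ (-Q))) * (e * y) := by ring
            _ ≤ (3 * C0 * δ * y⁻¹) * (e * y) := by gcongr
            _ = 3 * C0 * e * δ * (y⁻¹ * y) := by ring
            _ = _ := by rw [inv_mul_cancel₀ hy0.ne', mul_one]
        · rw [abs_mul, abs_of_pos hev0]
          calc Real.exp v * |Real.exp ζ - 1| ≤ (C0 * y ^ (-Q)) * ((κ * L) * (e * y)) := by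
                apply mul_le_mul hv _ (abs_nonneg _) (by positivity)
                refine (exp_sub_one _).trans ?_
                exact mul_le_mul hζ (hu ζ hζ) (Real.exp_pos _).le (by positivity)
            _ = C0 * e * (κ * L) * (y ^ (-Q) * y) := by ring
            _ ≤ C0 * e * (κ * L) * (y⁻¹ * y) := by gcongr
            _ = _ := by rw [inv_mul_cancel₀ hy0.ne', mul_one]
      have h5 : |DF a (R * Real.exp (v + ζ)) - DF a (1 * Real.exp v)| ≤
          LD a M * (3 * C0 * e * δ + C0 * e * (κ * L)) := by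
        refine (D_lip ha (hX0 ζ) (hXM ζ hζ) (by positivity) hevM).trans ?_
        exact mul_le_mul_of_nonneg_left h3 hLD0
      have h6 : |(Real.exp (a * ζ) - 1) * DF a (R * Real.exp (v + ζ)) +
            (DF a (R * Real.exp (v + ζ)) - DF a (1 * Real.exp v))| ≤ C' * (κ + δ) * L * q := by
        refine (abs_add_le _ _).trans ((add_le_add h2 h5).trans ?_)
        have hLq1 : 1 ≤ L * q := by nlinarith
        have e1 : a * (κ * L) * (e * q) * BD a M ≤ BD a M * a * e * ((κ + δ) * (L * q)) := by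
          have : a * (κ * L) * (e * q) * BD a M = BD a M * a * e * (κ * (L * q)) := by ring
          rw [this]
          gcongr
          linarith
        have e2 : 3 * C0 * e * δ + C0 * e * (κ * L) ≤ 3 * C0 * e * ((κ + δ) * (L * q)) := by
          have f1 : δ ≤ δ * (L * q) := le_mul_of_one_le_right hδ0 hLq1
          have f2 : κ * L ≤ κ * (L * q) := by
            apply mul_le_mul_of_nonneg_left _ hκ0
            exact le_mul_of_one_le_right hL0.le hq1
          have f3 : 3 * C0 * e * δ ≤ 3 * C0 * e * (δ * (L * q)) := by gcongr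
          have f4 : C0 * e * (κ * L) ≤ C0 * e * (κ * (L * q)) := by gcongr
          have f5 : C0 * e * (κ * (L * q)) ≤ 3 * C0 * e * (κ * (L * q)) := by
            have : 0 ≤ C0 * e * (κ * (L * q)) := by positivity
            linarith
          calc _ ≤ 3 * C0 * e * (δ * (L * q)) + 3 * C0 * e * (κ * (L * q)) := by linarith
            _ = _ := by ring
        have e3 : LD a M * (3 * C0 * e * δ + C0 * e * (κ * L)) ≤
            LD a M * (3 * C0 * e * ((κ + δ) * (L * q))) := mul_le_mul_of_nonneg_left e2 hLD0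
        calc _ ≤ BD a M * a * e * ((κ + δ) * (L * q)) + LD a M * (3 * C0 * e * ((κ + δ) * (L * q))) :=
              add_le_add e1 e3
          _ = C' * (κ + δ) * L * q := by rw [hC']; ring
      exact mul_le_mul heav h6 (abs_nonneg _) (by positivity)
    have h := Convex.norm_image_sub_le_of_norm_hasDerivWithin_le
      (f := fun ζ => kk a R (v + ζ) - kd a 1 v * ζ)
      (f' := fun ζ => kd a R (v + ζ) - kd a 1 v)
      (s := Set.Icc (-(κ * L)) (κ * L)) (x := z') (y := z) (C := B)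
      (fun ζ _ => (hder ζ).hasDerivWithinAt) (fun ζ hζ => by
        rw [Real.norm_eq_abs]
        exact hbound ζ (abs_le.2 hζ)) (convex_Icc _ _) (abs_le.1 hz') (abs_le.1 hz)
    rw [Real.norm_eq_abs, Real.norm_eq_abs] at h
    have h7 : kk a R (v + z) - kk a R (v + z') - kd a 1 v * (z - z') =
        kk a R (v + z) - kd a 1 v * z - (kk a R (v + z') - kd a 1 v * z') := by ring
    rw [h7]
    calc y ^ 2 * |kk a R (v + z) - kd a 1 v * z - (kk a R (v + z') - kd a 1 v * z')|
        ≤ y ^ 2 * (B * |z - z'|) := mul_le_mul_of_nonneg_left h (by positivity)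
      _ = (y ^ 2 * B) * |z - z'| := by ring
      _ ≤ (C1 * (κ + δ) * (y ^ (-(1 / 2) : ℝ) / L)) * |z - z'| := by
          apply mul_le_mul_of_nonneg_right _ (abs_nonneg _)
          rw [hqinv, hB]
          have h8 : y ^ 2 * (C0 ^ a * (y⁻¹) ^ 4 * (C' * (κ + δ) * L * q)) =
              (C0 ^ a * C' * (κ + δ)) * (L * q * (y⁻¹) ^ 2) := by
            field_simp
          have h9 : L * q * (y⁻¹) ^ 2 ≤ 4 * (q⁻¹ / L) := by
            rw [← hqq, mul_inv, div_eq_mul_inv]
            have h10 : L * q * (q⁻¹ * q⁻¹) ^ 2 = (L * L * (q⁻¹ * q⁻¹)) * (q⁻¹ * L⁻¹) := by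
              field_simp
            rw [h10]
            apply mul_le_mul_of_nonneg_right _ (by positivity)
            have h11 : L * L ≤ 4 * (q * q) := by nlinarith
            calc L * L * (q⁻¹ * q⁻¹) ≤ 4 * (q * q) * (q⁻¹ * q⁻¹) := by gcongr
              _ = 4 := by field_simp
          rw [h8]
          calc (C0 ^ a * C' * (κ + δ)) * (L * q * (y⁻¹) ^ 2) ≤
              (C0 ^ a * C' * (κ + δ)) * (4 * (q⁻¹ / L)) := by gcongr
            _ = (C0 ^ a * (4 * C')) * ((κ + δ) * (q⁻¹ / L)) := by ring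
            _ ≤ C1 * ((κ + δ) * (q⁻¹ / L)) := by
                apply mul_le_mul_of_nonneg_right _ (by positivity)
                have : 0 ≤ C0 ^ a * (3 * C0 * LK a M) := by positivity
                rw [hC1, mul_add]
                linarith
            _ = C1 * (κ + δ) * (q⁻¹ / L) := by ring
  · -- the second estimate
    have h1 : kk a R v - kk a 1 v = Real.exp (a * v) *
        (KF a (R * Real.exp v) - KF a (1 * Real.exp v)) := by
      rw [kk_eq, kk_eq]; ring
    have h2 : R * Real.exp v ≤ M := by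
      have := hXM 0 (by rw [abs_zero]; positivity)
      rwa [add_zero] at this
    have h3 := K_lip (M := M) ha (mul_nonneg hR0 hev0.le) h2 (by positivity) hevM
    have h4 : |R * Real.exp v - 1 * Real.exp v| ≤ 3 * C0 * δ * y⁻¹ := by
      rw [← sub_mul, abs_mul, abs_of_pos hev0]
      exact (mul_le_mul_of_nonneg_left hv (abs_nonneg _)).trans hR1v
    rw [h1, abs_mul, abs_of_pos (Real.exp_pos _), hqinv]
    calc y ^ 2 * (Real.exp (a * v) * |KF a (R * Real.exp v) - KF a (1 * Real.exp v)|)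
        ≤ y ^ 2 * ((C0 ^ a * (y⁻¹) ^ 4) * (LK a M * (3 * C0 * δ * y⁻¹))) := by
          apply mul_le_mul_of_nonneg_left _ (by positivity)
          apply mul_le_mul heav _ (abs_nonneg _) (by positivity)
          exact h3.trans (mul_le_mul_of_nonneg_left h4 hLK0)
      _ = (C0 ^ a * (3 * C0 * LK a M)) * δ * (y⁻¹) ^ 3 := by field_simp
      _ ≤ C1 * δ * q⁻¹ := by
          have h5 : C0 ^ a * (3 * C0 * LK a M) ≤ C1 := by
            have : 0 ≤ C0 ^ a * (4 * C') := by positivity
            rw [hC1, mul_add]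
            linarith
          have h6 : (y⁻¹) ^ 3 ≤ q⁻¹ := by
            have h7 : y⁻¹ ≤ q⁻¹ := by
              apply inv_anti₀ hq0
              nlinarith
            have h8 : 0 < y⁻¹ := inv_pos.2 hy0
            calc (y⁻¹) ^ 3 = y⁻¹ * ((y⁻¹) ^ 2) := by ring
              _ ≤ y⁻¹ * 1 := by
                  apply mul_le_mul_of_nonneg_left _ h8.le
                  exact pow_le_one₀ h8.le hyinv1
              _ ≤ q⁻¹ := by rw [mul_one]; exact h7
          have h9 : (0 : ℝ) ≤ C1 := by rw [hC1]; positivity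
          gcongr

end Pool.Agent.K3h28.GAH
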